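import Pool.Agent.TH719.ED.Defs
set_option autoImplicit false
namespace Pool.Agent.TH719.ED
open scoped Pointwise

namespace H142

section

variable (V : Type) [NormedAddCommGroup V] [InnerProductSpace ℝ V] [FiniteDimensional ℝ V]

/-- the matrix of an isometry, with complex entries -/
noncomputable def mtx : (V ≃ₗᵢ[ℝ] V) →*
    Matrix (Fin (Module.finrank ℝ V)) (Fin (Module.finrank ℝ V)) ℂ where
  toFun f := (algebraMap ℝ ℂ).mapMatrix (LinearMap.toMatrixAlgEquiv
    (stdOrthonormalBasis ℝ V).toBasis (f.toLinearEquiv.toLinearMap))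
  map_one' := by
    have : ((1 : V ≃ₗᵢ[ℝ] V).toLinearEquiv.toLinearMap) = 1 := rfl
    rw [this, map_one, map_one]
  map_mul' f g := by
    have : ((f * g : V ≃ₗᵢ[ℝ] V).toLinearEquiv.toLinearMap) =
      f.toLinearEquiv.toLinearMap * g.toLinearEquiv.toLinearMap := rfl
    rw [this, map_mul, map_mul]

theorem mtx_inj : Function.Injective (mtx V) := by
  intro f g h
  have h1 : LinearMap.toMatrixAlgEquiv (stdOrthonormalBasis ℝ V).toBasis
      (f.toLinearEquiv.toLinearMap) = LinearMap.toMatrixAlgEquiv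
        (stdOrthonormalBasis ℝ V).toBasis (g.toLinearEquiv.toLinearMap) := by
    ext i j
    have := congrFun (congrFun h i) j
    exact (algebraMap ℝ ℂ).injective this
  have h2 := (LinearMap.toMatrixAlgEquiv (stdOrthonormalBasis ℝ V).toBasis).injective h1
  ext v
  exact LinearMap.congr_fun h2 v

theorem mtx_unitary (f : V ≃ₗᵢ[ℝ] V) :
    mtx V f ∈ unitary (Matrix (Fin (Module.finrank ℝ V)) (Fin (Module.finrank ℝ V)) ℂ) := by
  have key : ∀ f : V ≃ₗᵢ[ℝ] V, star (mtx V f) * mtx V f = 1 := by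
    intro f
    ext i j
    rw [Matrix.mul_apply]
    have e : ∀ k, star (mtx V f) i k * mtx V f k j =
        ((inner ℝ (f (stdOrthonormalBasis ℝ V i)) (stdOrthonormalBasis ℝ V k) *
          inner ℝ (stdOrthonormalBasis ℝ V k) (f (stdOrthonormalBasis ℝ V j)) : ℝ) : ℂ) := by
      intro k
      rw [Matrix.star_apply]
      simp only [mtx, MonoidHom.coe_mk, OneHom.coe_mk, RingHom.mapMatrix_apply, Matrix.map_apply,
        LinearMap.toMatrixAlgEquiv_apply]
      simp only [OrthonormalBasis.coe_toBasis_repr_apply, OrthonormalBasis.repr_apply_apply,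
        OrthonormalBasis.coe_toBasis, LinearEquiv.coe_coe, LinearIsometryEquiv.coe_toLinearEquiv,
        Complex.coe_algebraMap]
      rw [Complex.star_def, Complex.conj_ofReal, real_inner_comm]
      push_cast
      ring
    rw [Finset.sum_congr rfl fun k _ => e k, ← Complex.ofReal_sum,
      OrthonormalBasis.sum_inner_mul_inner, LinearIsometryEquiv.inner_map_map,
      OrthonormalBasis.inner_eq_ite, Matrix.one_apply]
    split_ifs <;> simp
  rw [Unitary.mem_iff]
  refine ⟨key f, ?_⟩
  exact mul_eq_one_comm.mp (key f)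

/-- matrices as operators -/
noncomputable def clm (n : ℕ) : Matrix (Fin n) (Fin n) ℂ →⋆*
    (EuclideanSpace ℂ (Fin n) →L[ℂ] EuclideanSpace ℂ (Fin n)) where
  toFun := Matrix.toEuclideanCLM (n := Fin n) (𝕜 := ℂ)
  map_one' := map_one _
  map_mul' := map_mul _
  map_star' := map_star _

/-- isometries as unitary operators -/
noncomputable def cx : (V ≃ₗᵢ[ℝ] V) →* (EuclideanSpace ℂ (Fin (Module.finrank ℝ V)) ≃ₗᵢ[ℂ]
    EuclideanSpace ℂ (Fin (Module.finrank ℝ V))) :=
  (Unitary.linearIsometryEquiv.toMonoidHom).comp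
    ((Unitary.map (clm (Module.finrank ℝ V))).toMonoidHom.comp
      ((mtx V).codRestrict _ (mtx_unitary V)))

theorem cx_inj : Function.Injective (cx V) := by
  have h1 : Function.Injective (clm (Module.finrank ℝ V)) :=
    (Matrix.toEuclideanCLM (n := Fin (Module.finrank ℝ V)) (𝕜 := ℂ)).injective
  refine Unitary.linearIsometryEquiv.injective.comp ((Unitary.map_injective h1).comp ?_)
  intro f g h
  exact mtx_inj V (congrArg Subtype.val h)

end

end H142

theorem orthogonal_torsion (d : ℕ) (G : Type) [Group G] [Group.FG G]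
    (htor : ∀ g : G, IsOfFinOrder g)
    (hpoly : PolyGrowth G d) (V : Type) [NormedAddCommGroup V] [InnerProductSpace ℝ V]
    [FiniteDimensional ℝ V] (ρ : G →* (V ≃ₗᵢ[ℝ] V))
    (hU : ∀ (E : Type) [NormedAddCommGroup E] [InnerProductSpace ℂ E]
      [FiniteDimensional ℂ E] (ρ : G →* (E ≃ₗᵢ[ℂ] E)), (Set.range ρ).Finite) :
    (Set.range ρ).Finite := by
  have h1 := hU _ ((H142.cx V).comp ρ)
  have h2 : Set.range ((H142.cx V).comp ρ) = H142.cx V '' Set.range ρ := by
    rw [← Set.range_comp]
    rfl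
  rw [h2] at h1
  exact h1.of_finite_image (H142.cx_inj V).injOn

end Pool.Agent.TH719.ED
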