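import Pool.Agent.TH719.ED.Defs
set_option autoImplicit false
namespace Pool.Agent.TH719.ED
open scoped Pointwise

/-- the decorated word: after each block one of the two words `p p⁻¹`, `q q⁻¹` is inserted -/
def deco {G : Type} [Group G] (p q : G) : List (List G) → List Bool → List G
  | B :: Bs, e :: es => B ++ (if e then [p, p⁻¹] else [q, q⁻¹]) ++ deco p q Bs es
  | _, _ => []

namespace H142

variable {G : Type}

/-- total length -/
def tot : List (List G) → ℕ
  | [] => 0
  | B :: Bs => B.length + 2 + tot Bs

/-- position of the `j`-th decoration -/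
def pos : List (List G) → ℕ → ℕ
  | [], _ => 0
  | B :: _, 0 => B.length
  | B :: Bs, j + 1 => B.length + 2 + pos Bs j

theorem len_deco [Group G] (p q : G) : ∀ (Bs : List (List G)) (es : List Bool),
    es.length = Bs.length → (deco p q Bs es).length = tot Bs := by
  intro Bs
  induction Bs with
  | nil => intro es _; cases es <;> simp [deco, tot]
  | cons B Bs ih =>
    intro es h
    cases es with
    | nil => simp at h
    | cons e es =>
      have := ih es (by simpa using h)
      simp only [deco, tot, List.length_append, this]
      split_ifs <;> simp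

theorem pos_lt : ∀ (Bs : List (List G)) (j : ℕ), j < Bs.length → pos Bs j + 2 ≤ tot Bs := by
  intro Bs
  induction Bs with
  | nil => intro j h; simp at h
  | cons B Bs ih =>
    intro j h
    cases j with
    | zero => simp [pos, tot]
    | succ j =>
      have := ih j (by simpa using h)
      simp only [pos, tot]
      omega

theorem pos_mono : ∀ (Bs : List (List G)) (j j' : ℕ), j < j' → j' < Bs.length →
    pos Bs j < pos Bs j' := by
  intro Bs
  induction Bs with
  | nil => intro j j' _ h; simp at h
  | cons B Bs ih =>
    intro j j' h h'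
    cases j' with
    | zero => omega
    | succ j' =>
      cases j with
      | zero => simp only [pos]; omega
      | succ j =>
        have := ih j j' (by omega) (by simpa using h')
        simp only [pos]
        omega

theorem get_app (B L : List G) (a a' : G) (i : ℕ) : (B ++ a :: a' :: L)[i]? =
    if i < B.length then B[i]? else if i = B.length then some a
      else if i = B.length + 1 then some a' else L[i - (B.length + 2)]? := by
  by_cases h : i < B.length
  · rw [if_pos h, List.getElem?_append_left h]
  · rw [if_neg h, List.getElem?_append_right (by omega)]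
    obtain ⟨k, rfl⟩ := Nat.exists_eq_add_of_le (not_lt.mp h)
    match k with
    | 0 => simp
    | 1 => simp
    | k + 2 =>
      rw [if_neg (by omega), if_neg (by omega), show B.length + (k + 2) - B.length = k + 2 by omega,
        show B.length + (k + 2) - (B.length + 2) = k by omega]
      simp

theorem deco_cons [Group G] (p q : G) (B : List G) (Bs : List (List G)) (e : Bool)
    (es : List Bool) (i : ℕ) : (deco p q (B :: Bs) (e :: es))[i]? =
      if i < B.length then B[i]? else if i = B.length then some (if e then p else q)
      else if i = B.length + 1 then some (if e then p⁻¹ else q⁻¹)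
      else (deco p q Bs es)[i - (B.length + 2)]? := by
  have : deco p q (B :: Bs) (e :: es) = B ++ (if e then p else q) :: (if e then p⁻¹ else q⁻¹) ::
      deco p q Bs es := by
    simp only [deco]
    split_ifs <;> simp
  rw [this, get_app]

theorem deco_pos [Group G] (p q : G) : ∀ (Bs : List (List G)) (es : List Bool),
    es.length = Bs.length → ∀ j < Bs.length,
    (deco p q Bs es)[pos Bs j]? = some (if es.getD j false then p else q) := by
  intro Bs
  induction Bs with
  | nil => intro es _ j h; simp at h
  | cons B Bs ih =>
    intro es h j hj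
    cases es with
    | nil => simp at h
    | cons e es =>
      rw [deco_cons]
      cases j with
      | zero => simp [pos]
      | succ j =>
        have e1 : pos (B :: Bs) (j + 1) = B.length + 2 + pos Bs j := rfl
        rw [e1, if_neg (show ¬ B.length + 2 + pos Bs j < B.length by omega),
          if_neg (show ¬ B.length + 2 + pos Bs j = B.length by omega),
          if_neg (show ¬ B.length + 2 + pos Bs j = B.length + 1 by omega),
          show B.length + 2 + pos Bs j - (B.length + 2) = pos Bs j by omega,
          ih es (by simpa using h) j (by simpa using hj)]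
        simp

theorem deco_congr [Group G] (p q : G) : ∀ (Bs : List (List G)) (es es' : List Bool),
    es.length = Bs.length → es'.length = Bs.length → ∀ i,
    (∀ j < Bs.length, pos Bs j ≤ i → es.getD j false = es'.getD j false) →
    (deco p q Bs es)[i]? = (deco p q Bs es')[i]? := by
  intro Bs
  induction Bs with
  | nil => intro es es' _ _ i _; cases es <;> cases es' <;> simp [deco]
  | cons B Bs ih =>
    intro es es' h h' i hi
    cases es with
    | nil => simp at h
    | cons e es =>
      cases es' with
      | nil => simp at h'
      | cons e' es' =>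
        rw [deco_cons, deco_cons]
        by_cases h1 : i < B.length
        · rw [if_pos h1, if_pos h1]
        · rw [if_neg h1, if_neg h1]
          have he : e = e' := by
            have := hi 0 (by simp) (by simp only [pos]; omega)
            simpa using this
          subst he
          by_cases h2 : i = B.length
          · rw [if_pos h2, if_pos h2]
          rw [if_neg h2, if_neg h2]
          by_cases h3 : i = B.length + 1
          · rw [if_pos h3, if_pos h3]
          rw [if_neg h3, if_neg h3]
          apply ih es es' (by simpa using h) (by simpa using h')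
          intro j hj hjp
          have := hi (j + 1) (by simpa using hj) (by simp only [pos]; omega)
          simpa using this

theorem window (b : ℕ) : ∀ (Bs : List (List G)), (∀ B ∈ Bs, B.length ≤ b) → ∀ y,
    y + (b + 2) ≤ tot Bs → ∃ j < Bs.length, y ≤ pos Bs j ∧ pos Bs j < y + (b + 2) := by
  intro Bs
  induction Bs with
  | nil => intro _ y h; simp [tot] at h
  | cons B Bs ih =>
    intro hB y h
    have hb := hB B (by simp)
    simp only [tot] at h
    by_cases h1 : y ≤ B.length
    · exact ⟨0, by simp, by simpa [pos] using h1, by simp only [pos]; omega⟩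
    by_cases h2 : B.length + 2 ≤ y
    · obtain ⟨j, hj, h3, h4⟩ := ih (fun B' hB' => hB B' (by simp [hB'])) (y - (B.length + 2))
        (by omega)
      exact ⟨j + 1, by simpa using hj, by simp only [pos]; omega, by simp only [pos]; omega⟩
    · cases Bs with
      | nil => simp [tot] at h; omega
      | cons B' Bs =>
        have hb' := hB B' (by simp)
        exact ⟨1, by simp, by simp only [pos]; omega, by simp only [pos]; omega⟩

end H142

open H142 in
theorem exists_deco {G : Type} [Group G] (p q : G) (hpq : p ≠ q) (b : ℕ) (Bs : List (List G))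
    (hB : ∀ B ∈ Bs, B.length ≤ b) :
    ∃ es : List Bool, es.length = Bs.length ∧
      ∀ z z' : ℕ, z < z' → z' + (b + 2) * (2 * Nat.log 2 (deco p q Bs es).length + 6) ≤
        (deco p q Bs es).length →
        ∃ i < (b + 2) * (2 * Nat.log 2 (deco p q Bs es).length + 6),
          (deco p q Bs es)[z + i]? ≠ (deco p q Bs es)[z' + i]? := by
  classical
  obtain ⟨n, hn⟩ : ∃ n, n = tot Bs := ⟨_, rfl⟩
  obtain ⟨Q, hQ⟩ : ∃ Q, Q = 2 * Nat.log 2 n + 6 := ⟨_, rfl⟩
  obtain ⟨m, hm⟩ : ∃ m, m = Bs.length := ⟨_, rfl⟩
  by_contra hcon
  push Not at hcon
  -- the word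
  let W : (Fin m → Bool) → List G := fun e => deco p q Bs (List.ofFn e)
  have hlen : ∀ e : Fin m → Bool, (List.ofFn e).length = Bs.length := fun e => by
    rw [List.length_ofFn, hm]
  have hWlen : ∀ e, (W e).length = n := fun e => by
    rw [hn]; exact len_deco p q Bs _ (hlen e)
  let Bad : ℕ × ℕ → Finset (Fin m → Bool) := fun zz => Finset.univ.filter fun e =>
    zz.1 < zz.2 ∧ zz.2 + (b + 2) * Q ≤ n ∧ ∀ i < (b + 2) * Q, (W e)[zz.1 + i]? = (W e)[zz.2 + i]?
  have hcover : (Finset.univ : Finset (Fin m → Bool)) ⊆
      (Finset.range n ×ˢ Finset.range n).biUnion Bad := by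
    intro e _
    obtain ⟨z, z', h1, h2, h3⟩ := hcon (List.ofFn e) (hlen e)
    have hl : (deco p q Bs (List.ofFn e)).length = n := hWlen e
    rw [hl, ← hQ] at h2
    rw [hl, ← hQ] at h3
    rw [Finset.mem_biUnion]
    have hpos : 0 < (b + 2) * Q := Nat.mul_pos (by omega) (by omega)
    refine ⟨(z, z'), ?_, ?_⟩
    · rw [Finset.mem_product, Finset.mem_range, Finset.mem_range]
      constructor
      · change z < n
        omega
      · change z' < n
        omega
    · rw [Finset.mem_filter]
      exact ⟨Finset.mem_univ _, h1, h2, h3⟩
  -- each bad set is small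
  have hbad : ∀ zz, (Bad zz).card * 2 ^ Q ≤ 2 ^ m := by
    rintro ⟨z, z'⟩
    by_cases hne : (Bad (z, z')).Nonempty
    swap
    · rw [Finset.not_nonempty_iff_eq_empty.mp hne]; simp
    obtain ⟨e0, he0⟩ := hne
    have h0 := (Finset.mem_filter.mp he0).2
    have hzz : z < z' := h0.1
    have hzn : z' + (b + 2) * Q ≤ n := h0.2.1
    let J : Finset (Fin m) := Finset.univ.filter fun j =>
      z' ≤ pos Bs j ∧ pos Bs j < z' + (b + 2) * Q
    -- many decorations in the window
    have hJ : Q ≤ J.card := by
      have hw : ∀ t : Fin Q, ∃ j : Fin m, z' + (b + 2) * t ≤ pos Bs j ∧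
          pos Bs j < z' + (b + 2) * t + (b + 2) := by
        intro t
        have ht : (b + 2) * (t : ℕ) + (b + 2) ≤ (b + 2) * Q := by
          have := t.2
          calc (b + 2) * (t : ℕ) + (b + 2) = (b + 2) * ((t : ℕ) + 1) := by ring
            _ ≤ (b + 2) * Q := Nat.mul_le_mul_left _ (by omega)
        obtain ⟨j, hj, h1, h2⟩ := window b Bs hB (z' + (b + 2) * t) (by rw [← hn]; omega)
        exact ⟨⟨j, by omega⟩, h1, h2⟩
      choose jj hj1 hj2 using hw
      have hinj : Function.Injective jj := by
        intro t t' h
        have a1 := hj1 t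
        have a2 := hj2 t
        have b1 := hj1 t'
        have b2 := hj2 t'
        rw [h] at a1 a2
        apply Fin.ext
        by_contra hne
        rcases Nat.lt_or_gt_of_ne hne with hlt | hlt
        · have : (b + 2) * (t : ℕ) + (b + 2) ≤ (b + 2) * (t' : ℕ) := by
            calc (b + 2) * (t : ℕ) + (b + 2) = (b + 2) * ((t : ℕ) + 1) := by ring
              _ ≤ (b + 2) * (t' : ℕ) := Nat.mul_le_mul_left _ (by omega)
          omega
        · have : (b + 2) * (t' : ℕ) + (b + 2) ≤ (b + 2) * (t : ℕ) := by
            calc (b + 2) * (t' : ℕ) + (b + 2) = (b + 2) * ((t' : ℕ) + 1) := by ring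
              _ ≤ (b + 2) * (t : ℕ) := Nat.mul_le_mul_left _ (by omega)
          omega
      have := Finset.card_le_card_of_injOn (s := (Finset.univ : Finset (Fin Q))) (t := J) jj
        (fun t _ => by
          have a1 := hj1 t
          have a2 := hj2 t
          have ht : (b + 2) * (t : ℕ) + (b + 2) ≤ (b + 2) * Q := by
            have := t.2
            calc (b + 2) * (t : ℕ) + (b + 2) = (b + 2) * ((t : ℕ) + 1) := by ring
              _ ≤ (b + 2) * Q := Nat.mul_le_mul_left _ (by omega)
          simp only [J, Finset.coe_filter, Finset.mem_univ, true_and, Set.mem_ofPred_eq]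
          constructor <;> omega) hinj.injOn
      simpa using this
    have hJm : J.card ≤ m := by
      have := Finset.card_le_univ J
      simpa using this
    -- injection
    have hcard : (Bad (z, z')).card ≤ 2 ^ (m - J.card) := by
      have h1 : (Bad (z, z')).card ≤ (Finset.univ : Finset ({j // j ∉ J} → Bool)).card := by
        refine Finset.card_le_card_of_injOn (fun e => fun j => e j.1) (fun _ _ => by simp) ?_
        intro e he e' he' hee
        have he1 := (Finset.mem_filter.mp (Finset.mem_coe.mp he)).2.2.2
        have he1' := (Finset.mem_filter.mp (Finset.mem_coe.mp he')).2.2.2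
        by_contra hne
        have hex : ∃ k : ℕ, ∃ h : k < m, e ⟨k, h⟩ ≠ e' ⟨k, h⟩ := by
          by_contra hh
          push Not at hh
          exact hne (funext fun j => hh j.1 j.2)
        obtain ⟨hk, hke⟩ := Nat.find_spec hex
        have hmin : ∀ j : ℕ, j < Nat.find hex → ∀ h : j < m, e ⟨j, h⟩ = e' ⟨j, h⟩ := by
          intro j hj h
          by_contra hh
          exact Nat.find_min hex hj ⟨h, hh⟩
        generalize Nat.find hex = k at hk hke hmin
        have hkJ : (⟨k, hk⟩ : Fin m) ∈ J := by
          by_contra hnJ
          exact hke (congrFun hee ⟨⟨k, hk⟩, hnJ⟩)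
        have hkJ' : z' ≤ pos Bs k ∧ pos Bs k < z' + (b + 2) * Q := by
          simpa [J] using hkJ
        have hD : ∀ (e : Fin m → Bool) (j : ℕ) (h : j < m),
            (List.ofFn e).getD j false = e ⟨j, h⟩ := by
          intro e j h
          rw [List.getD_eq_getElem _ _ (by simpa using h)]
          simp
        have i1 := he1 (pos Bs k - z') (by omega)
        have i2 := he1' (pos Bs k - z') (by omega)
        simp only at i1 i2
        rw [show z' + (pos Bs k - z') = pos Bs k by omega] at i1 i2
        have i3 : (W e)[pos Bs k]? = some (if e ⟨k, hk⟩ then p else q) := by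
          have := deco_pos p q Bs (List.ofFn e) (hlen e) k (by omega)
          rw [hD e k hk] at this
          exact this
        have i4 : (W e')[pos Bs k]? = some (if e' ⟨k, hk⟩ then p else q) := by
          have := deco_pos p q Bs (List.ofFn e') (hlen e') k (by omega)
          rw [hD e' k hk] at this
          exact this
        have i5 : (W e)[z + (pos Bs k - z')]? = (W e')[z + (pos Bs k - z')]? := by
          apply deco_congr p q Bs _ _ (hlen e) (hlen e')
          intro j hj hjp
          have hjm : j < m := by omega
          rw [hD e j hjm, hD e' j hjm]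
          apply hmin
          by_contra hge
          rcases Nat.lt_or_ge k j with hlt | hge'
          · have := pos_mono Bs k j hlt hj
            omega
          · have : j = k := by omega
            subst this
            omega
        rw [i1, i2, i3, i4] at i5
        have i6 := Option.some.inj i5
        apply hke
        cases h1 : e ⟨k, hk⟩ <;> cases h2 : e' ⟨k, hk⟩ <;> simp [h1, h2] at i6 ⊢
        · exact hpq i6.symm
        · exact hpq i6
      refine h1.trans (le_of_eq ?_)
      rw [Finset.card_univ, Fintype.card_fun, Fintype.card_bool]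
      congr 1
      rw [Fintype.card_subtype_compl, Fintype.card_fin, Fintype.card_coe]
    calc (Bad (z, z')).card * 2 ^ Q ≤ 2 ^ (m - J.card) * 2 ^ J.card :=
          Nat.mul_le_mul hcard (Nat.pow_le_pow_right (by norm_num) hJ)
      _ = 2 ^ m := by rw [← pow_add]; congr 1; omega
  -- conclusion
  have h1 : 2 ^ m ≤ ∑ zz ∈ Finset.range n ×ˢ Finset.range n, (Bad zz).card := by
    have := (Finset.card_le_card hcover).trans Finset.card_biUnion_le
    simpa using this
  have h2 : 2 ^ m * 2 ^ Q ≤ n * n * 2 ^ m := by
    calc 2 ^ m * 2 ^ Q ≤ (∑ zz ∈ Finset.range n ×ˢ Finset.range n, (Bad zz).card) * 2 ^ Q :=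
          Nat.mul_le_mul_right _ h1
      _ = ∑ zz ∈ Finset.range n ×ˢ Finset.range n, (Bad zz).card * 2 ^ Q := Finset.sum_mul _ _ _
      _ ≤ ∑ zz ∈ Finset.range n ×ˢ Finset.range n, 2 ^ m := Finset.sum_le_sum fun zz _ => hbad zz
      _ = n * n * 2 ^ m := by simp
  have h3 : 2 ^ Q ≤ n * n := by
    have : 2 ^ m * 2 ^ Q ≤ 2 ^ m * (n * n) := by rw [mul_comm (2 ^ m) (n * n)]; exact h2
    exact Nat.le_of_mul_le_mul_left this (by positivity)
  have h4 : n < 2 ^ (Nat.log 2 n + 1) := Nat.lt_pow_succ_log_self (by norm_num) n
  have h5 : n * n < 2 ^ Q := by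
    calc n * n < 2 ^ (Nat.log 2 n + 1) * 2 ^ (Nat.log 2 n + 1) :=
          Nat.mul_lt_mul'' h4 h4
      _ = 2 ^ (2 * Nat.log 2 n + 2) := by rw [← pow_add]; congr 1; ring
      _ ≤ 2 ^ Q := Nat.pow_le_pow_right (by norm_num) (by omega)
  omega

end Pool.Agent.TH719.ED
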